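import Mathlib

set_option autoImplicit false

namespace Pool.Agent.Results.MP_a03d73_co.Parity

open Finset

/-- An inclusion-minimal non-empty set of nonzero vectors with sum zero. -/
def IsCircuit {n : ℕ} (C : Finset (Fin n → ZMod 2)) : Prop :=
  0 ∉ C ∧ C.Nonempty ∧ ∑ x ∈ C, x = 0 ∧ ∀ D ⊆ C, D.Nonempty → ∑ x ∈ D, x = 0 → D = C

/-- `C₁, …, C_t` are circuits whose symmetric difference is `M`. -/
def IsOddCover {n t : ℕ} (M : Finset (Fin n → ZMod 2)) (C : Fin t → Finset (Fin n → ZMod 2)) : Prop :=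
  (∀ i, IsCircuit (C i)) ∧ ∀ x, x ∈ M ↔ Odd #{i | x ∈ C i}

lemma card_le {n : ℕ} {C : Finset (Fin n → ZMod 2)} (h : IsCircuit C) (S : Finset (Fin n → ZMod 2))
    (hS : ∀ D ⊆ C, ∑ x ∈ D, x ∈ S) : 2 ^ (#C - 1) ≤ #S := by
  obtain ⟨c, hc⟩ := h.2.1
  rw [← card_erase_of_mem hc, ← card_powerset]
  refine card_le_card_of_injOn (fun D => ∑ x ∈ D, x)
    (fun D hD => hS D ((mem_powerset.1 hD).trans (erase_subset _ _))) fun D hD E hE e => ?_
  have hD := mem_powerset.1 hD
  have hE := mem_powerset.1 hE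
  by_contra hne
  have h1 : symmDiff D E ⊆ C.erase c := symmDiff_subset_union.trans (union_subset hD hE)
  have h2 := h.2.2.2 _ (h1.trans (erase_subset _ _)) (symmDiff_nonempty.2 hne) (by
    rw [symmDiff_def, sup_eq_union, sum_union disjoint_sdiff_sdiff]
    have a := sum_inter_add_sum_sdiff D E fun x => x
    have b := sum_inter_add_sum_sdiff E D fun x => x
    rw [inter_comm, ← show ∑ x ∈ D, x = ∑ x ∈ E, x from e, ← a, add_right_inj] at b
    rw [b]; ext i; exact CharTwo.add_self_eq_zero _)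
  exact notMem_erase c C (h1 (h2 ▸ hc))

def vec (n : ℕ) : Fin 8 → ZMod 2 := fun i => if n.testBit i then 1 else 0

def w : Fin 3 → Fin 8 → ℕ := ![![4, 5, 6, 8, 64, 80, 96, 128], ![7, 9, 10, 12, 112, 144, 160, 192],
  ![11, 13, 14, 15, 176, 208, 224, 240]]

def w' : Fin 3 → Fin 8 → ℕ := ![![3, 5, 1, 8, 48, 80, 16, 128], ![13, 11, 7, 15, 208, 176, 112, 240],
  ![12, 10, 9, 7, 192, 160, 144, 112]]

def M : Finset (Fin 8 → ZMod 2) := univ.biUnion fun i => univ.image fun j => vec (w i j)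

lemma inter_le {C : Finset (Fin 8 → ZMod 2)} (h : IsCircuit C) :
    #(C ∩ M) ≤ 8 ∧ (#(C ∩ M) = 8 → #(C \ M) = 1) := by
  have h1 := card_le h univ fun _ _ => mem_univ _
  rw [card_univ, Fintype.card_fun, ZMod.card, Fintype.card_fin, pow_le_pow_iff_right₀ (by norm_num)] at h1
  have h2 := card_inter_add_card_sdiff C M
  by_cases h3 : #(C \ M) = 0
  swap
  · omega
  have h4 : C ⊆ M := sdiff_eq_empty_iff_subset.1 (card_eq_zero.1 h3)
  have key : ∀ p : Fin 8 → Prop, ∀ [DecidablePred p], #{i | ¬ p i} = 4 → (∀ x ∈ C, ∀ i, p i → x i = 0) →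
      #C ≤ 5 := fun p _ hp hx => by
    have := card_le h (Fintype.piFinset fun i => if p i then {0} else univ) fun D hD => by
      rw [Fintype.mem_piFinset]
      intro i
      split_ifs with hi
      · simpa using sum_eq_zero fun x h => hx x (hD h) i hi
      · simp
    simp only [Fintype.card_piFinset, apply_ite card, card_singleton, prod_ite, prod_const_one,
      card_univ, ZMod.card, prod_const, hp, one_mul] at this
    rw [pow_le_pow_iff_right₀ (by norm_num)] at this
    omega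
  have h5 : ∀ x ∈ M, (∀ i : Fin 8, 4 ≤ i.1 → x i = 0) ∨ (∀ i : Fin 8, i.1 < 4 → x i = 0) := by
    decide +kernel
  suffices #C ≤ 5 by omega
  by_cases h6 : (C.filter fun x => ∀ i : Fin 8, 4 ≤ i.1 → x i = 0).Nonempty
  · have := h.2.2.2 _ (filter_subset _ _) h6 (by
      ext i
      rcases le_or_gt 4 i.1 with hi | hi
      · rw [Finset.sum_apply]; exact sum_eq_zero fun x hx => (mem_filter.1 hx).2 i hi
      · rw [← congrFun h.2.2.1 i, Finset.sum_apply, Finset.sum_apply]
        refine sum_filter_of_ne fun x hx h0 => (h5 x (h4 hx)).resolve_right fun h => h0 (h i hi))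
    exact key (fun i => 4 ≤ i.1) (by decide) fun x hx => (mem_filter.1 (this ▸ hx)).2
  · refine key (fun i => i.1 < 4) (by decide) fun x hx => (h5 x (h4 hx)).resolve_left fun h => ?_
    exact h6 ⟨x, mem_filter.2 ⟨hx, h⟩⟩

theorem result : ∃ (n : ℕ) (M : Finset (Fin n → ZMod 2)), 1 ≤ n ∧ 0 ∉ M ∧ ∑ x ∈ M, x = 0 ∧
    ∃ a : ℕ, (∃ I : Fin a → Finset (Fin n → ZMod 2),
      (∀ i, LinearIndepOn (ZMod 2) id (I i : Set (Fin n → ZMod 2))) ∧ univ.biUnion I = M) ∧
    ∀ (t : ℕ) (C : Fin t → Finset (Fin n → ZMod 2)), IsOddCover M C → a < t := by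
  refine ⟨8, M, by norm_num, by decide +kernel, by decide +kernel, 3,
    ⟨fun i => univ.image fun j => vec (w i j), fun i => ?_, rfl⟩, fun t C hC => ?_⟩
  · have : ∀ i, Matrix.of (fun j => vec (w i j)) * Matrix.of (fun j => vec (w' i j)) = 1 := by
      decide +kernel
    simpa using (Matrix.linearIndependent_rows_iff_isUnit.2
      (IsUnit.of_mul_eq_one _ (this i))).linearIndepOn_id
  by_contra ht
  have h1 : ∀ S : Finset (Fin 8 → ZMod 2), ∑ i, #(C i ∩ S) = ∑ x ∈ S, #{i | x ∈ C i} := fun S => by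
    simp only [card_filter]
    rw [sum_comm]
    refine sum_congr rfl fun i _ => ?_
    rw [← card_filter, filter_mem_eq_inter, inter_comm]
  have h2 : 24 ≤ ∑ i, #(C i ∩ M) := by
    rw [h1, ← show #M = 24 by decide +kernel, card_eq_sum_ones]
    exact sum_le_sum fun x hx => ((hC.2 x).1 hx).pos
  have h3 : Even (∑ i, #(C i ∩ Mᶜ)) := by
    rw [h1]
    exact even_sum _ fun x hx => Nat.not_odd_iff_even.1 ((hC.2 x).not.1 (mem_compl.1 hx))
  simp only [← sdiff_eq_inter_compl] at h3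
  have h4 := fun i => inter_le (hC.1 i)
  have h5 := sum_le_card_nsmul univ _ 8 fun i _ => (h4 i).1
  simp only [card_univ, Fintype.card_fin, smul_eq_mul] at h5
  obtain rfl : t = 3 := by omega
  rw [Fin.sum_univ_three] at h2 h3
  have := h4 0
  have := h4 1
  have := h4 2
  rw [Nat.even_iff] at h3
  omega

end Pool.Agent.Results.MP_a03d73_co.Parity
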